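import Pool.Agent.H29.UDP.TPro

/-!
# MP_47c37b: scaling limits, row BXR: the fields in the boxes belong to the class
-/

set_option autoImplicit false

open MeasureTheory SchwartzMap Filter Topology
open scoped ENNReal ContDiff InnerProductSpace

namespace Pool.Agent.H80.UDP

open Pool.Agent.H29.UDP
open Pool.Agent.H43.DPC (V S SD)
open Pool.Agent.H80.LD (Re IsField)

noncomputable section

variable {d L : ℕ}

theorem Re_apply' (e : V d) (he : ‖e‖ = 1) (x : V d) : Re e x = x - (2 * ⟪e, x⟫_ℝ) • e := by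
  unfold Re
  rw [Submodule.reflection_orthogonal_apply, Submodule.reflection_singleton_apply, he]
  simp only [RCLike.ofReal_real_eq_id, id_eq, one_pow, div_one, neg_sub, ← smul_assoc, nsmul_eq_mul,
    Nat.cast_ofNat]

theorem bpos_apply (δ : ℝ) (x : Bx d L) (i : Fin d) :
    bpos δ x i = δ * (((x i : ℕ) : ℝ) - L + 1 / 2) := rfl

theorem bpos_inj {δ : ℝ} (hδ : 0 < δ) {x y : Bx d L} (h : bpos δ x = bpos δ y) : x = y := by
  funext i
  have h1 := congrArg (fun v : V d => v i) h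
  simp only [bpos_apply] at h1
  have h2 := mul_left_cancel₀ hδ.ne' h1
  have h3 : ((x i : ℕ) : ℝ) = ((y i : ℕ) : ℝ) := by linarith
  exact Fin.ext (by exact_mod_cast h3)

theorem coord_inj {δ : ℝ} (hδ : 0 < δ) {m n : Fin (2 * L)}
    (h : δ * (((m : ℕ) : ℝ) - L + 1 / 2) = δ * (((n : ℕ) : ℝ) - L + 1 / 2)) : m = n := by
  have h2 := mul_left_cancel₀ hδ.ne' h
  have h3 : ((m : ℕ) : ℝ) = ((n : ℕ) : ℝ) := by linarith
  exact Fin.ext (by exact_mod_cast h3)

theorem bJ_nonneg {δ κ κ' s : ℝ} (hκ : 0 ≤ κ) (hκ' : 0 ≤ κ') (x y : Bx d L) :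
    0 ≤ bJ δ κ κ' s x y := by
  unfold bJ
  have h1 : 0 ≤ (if x = y then 0 else κ * ‖bpos δ x - bpos δ y‖ ^ (-(2 * s))) := by
    split_ifs
    · exact le_rfl
    · exact mul_nonneg hκ (Real.rpow_nonneg (norm_nonneg _) _)
  have h2 : 0 ≤ (if ‖bpos δ x - bpos δ y‖ = δ then κ' else 0) := by
    split_ifs
    · exact hκ'
    · exact le_rfl
  linarith

theorem bJ_symm (δ κ κ' s : ℝ) (x y : Bx d L) : bJ δ κ κ' s x y = bJ δ κ κ' s y x := by
  unfold bJ
  rw [norm_sub_rev]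
  by_cases h : x = y
  · subst h; rfl
  · rw [if_neg h, if_neg (Ne.symm h)]

/-- the power law part -/
theorem power_nonneg (hRPK : Pool.Agent.H80.LD.T_RPK) {δ s : ℝ} (hs : (d : ℝ) ≤ 2 * s) (e : V d)
    (he : ‖e‖ = 1) (c : Bx d L → ℝ) (hc : ∀ x, ¬ 0 < ⟪e, bpos δ x⟫_ℝ → c x = 0) :
    0 ≤ ∑ x, ∑ y, c x * c y * ‖Re e (bpos δ x) - bpos δ y‖ ^ (-(2 * s)) := by
  classical
  set P : Finset (Bx d L) := Finset.univ.filter (fun x => 0 < ⟪e, bpos δ x⟫_ℝ) with hP
  set E := P.equivFin with hE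
  have hsum : ∀ F : Bx d L → ℝ, (∀ x, ¬ 0 < ⟪e, bpos δ x⟫_ℝ → F x = 0) →
      ∑ x, F x = ∑ i : Fin P.card, F (E.symm i).1 := by
    intro F hF
    rw [Equiv.sum_comp E.symm (fun x : P => F x.1), Finset.sum_coe_sort P F]
    refine (Finset.sum_subset (Finset.subset_univ P) fun x _ hx => ?_).symm
    refine hF x fun h => hx ?_
    rw [hP, Finset.mem_filter]
    exact ⟨Finset.mem_univ x, h⟩
  have h1 := hRPK d e he s hs P.card (fun i => bpos δ (E.symm i).1)
    (fun i => c (E.symm i).1) (fun i => (Finset.mem_filter.1 (E.symm i).2).2)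
  refine h1.trans (le_of_eq ?_)
  rw [hsum (fun x => ∑ y, c x * c y * ‖Re e (bpos δ x) - bpos δ y‖ ^ (-(2 * s)))]
  · refine Finset.sum_congr rfl fun i _ => ?_
    rw [hsum (fun y => c (E.symm i).1 * c y *
      ‖Re e (bpos δ (E.symm i).1) - bpos δ y‖ ^ (-(2 * s)))]
    intro y hy
    rw [hc y hy]
    ring
  · intro x hx
    refine Finset.sum_eq_zero fun y _ => ?_
    rw [hc x hx]
    ring

/-- the data of a reflection of the box -/
structure RefD {d : ℕ} (L : ℕ) (δ : ℝ) (e : V d) (σ : Bx d L → Bx d L) : Prop where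
  norm : ‖e‖ = 1
  inv : ∀ x : Bx d L, σ (σ x) = x
  pos : ∀ x : Bx d L, bpos δ (σ x) = Re e (bpos δ x)
  fix : ∀ x : Bx d L, ⟪e, bpos δ x⟫_ℝ = 0 → σ x = x
  nn : ∀ x y : Bx d L, 0 < ⟪e, bpos δ x⟫_ℝ → 0 < ⟪e, bpos δ y⟫_ℝ →
    ‖Re e (bpos δ x) - bpos δ y‖ = δ → x = y

theorem inner_Re (e : V d) (he : ‖e‖ = 1) (x : V d) : ⟪e, Re e x⟫_ℝ = -⟪e, x⟫_ℝ := by
  rw [Re_apply' e he, inner_sub_right, real_inner_smul_right, real_inner_self_eq_norm_sq, he]
  ring

variable {δ : ℝ} {e : V d} {σ : Bx d L → Bx d L}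

theorem bJ_sig (κ κ' s : ℝ) (R : RefD L δ e σ) (x y : Bx d L) :
    bJ δ κ κ' s (σ x) (σ y) = bJ δ κ κ' s x y := by
  unfold bJ
  have h1 : ‖bpos δ (σ x) - bpos δ (σ y)‖ = ‖bpos δ x - bpos δ y‖ := by
    rw [R.pos, R.pos, ← map_sub, LinearIsometryEquiv.norm_map]
  have h2 : σ x = σ y ↔ x = y := by
    constructor
    · intro h
      have := congrArg σ h
      rwa [R.inv, R.inv] at this
    · rintro rfl; rfl
  rw [h1]
  by_cases h : x = y
  · rw [if_pos h, if_pos (h2.2 h)]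
  · rw [if_neg h, if_neg (fun h' => h (h2.1 h'))]

theorem bJ_rp (hRPK : Pool.Agent.H80.LD.T_RPK) {κ κ' s : ℝ} (hκ : 0 ≤ κ)
    (hκ' : 0 ≤ κ') (hs : (d : ℝ) ≤ 2 * s) (R : RefD L δ e σ) (c : Bx d L → ℝ)
    (hc : ∀ x, ⟪e, bpos δ x⟫_ℝ ≤ 0 → c x = 0) :
    0 ≤ ∑ x, ∑ y, c x * c y * bJ δ κ κ' s (σ x) y := by
  have hc' : ∀ x, ¬ 0 < ⟪e, bpos δ x⟫_ℝ → c x = 0 := fun x hx => hc x (not_lt.1 hx)
  have hterm : ∀ x y, c x * c y * bJ δ κ κ' s (σ x) y =
      κ * (c x * c y * ‖Re e (bpos δ x) - bpos δ y‖ ^ (-(2 * s))) +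
      c x * c y * (if ‖Re e (bpos δ x) - bpos δ y‖ = δ then κ' else 0) := by
    intro x y
    by_cases hx : 0 < ⟪e, bpos δ x⟫_ℝ
    · by_cases hy : 0 < ⟪e, bpos δ y⟫_ℝ
      · unfold bJ
        have hne : σ x ≠ y := by
          intro h
          have h1 : ⟪e, bpos δ (σ x)⟫_ℝ = ⟪e, bpos δ y⟫_ℝ := by rw [h]
          rw [R.pos, inner_Re e R.norm] at h1
          linarith
        rw [if_neg hne, R.pos]
        ring
      · rw [hc' y hy]
        ring
    · rw [hc' x hx]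
      ring
  simp only [hterm, Finset.sum_add_distrib, ← Finset.mul_sum]
  refine add_nonneg (mul_nonneg hκ (power_nonneg hRPK hs e R.norm c hc')) ?_
  refine Finset.sum_nonneg fun x _ => Finset.sum_nonneg fun y _ => ?_
  by_cases h0 : c x * c y = 0
  · rw [h0, zero_mul]
  · have hx : 0 < ⟪e, bpos δ x⟫_ℝ := by
      by_contra hx
      exact h0 (by rw [hc' x hx, zero_mul])
    have hy : 0 < ⟪e, bpos δ y⟫_ℝ := by
      by_contra hy
      exact h0 (by rw [hc' y hy, mul_zero])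
    split_ifs with h
    · have := R.nn x y hx hy h
      subst this
      exact mul_nonneg (mul_self_nonneg _) hκ'
    · rw [mul_zero]

/-- the lattice system -/
def latM (hRPK : Pool.Agent.H80.LD.T_RPK) (R : RefD L δ e σ) (κ κ' s g b w : ℝ) (hκ : 0 ≤ κ)
    (hκ' : 0 ≤ κ') (hs : (d : ℝ) ≤ 2 * s) (hg : 0 < g) (hw : 0 ≤ w) : MSys d e where
  ι := Bx d L
  pos := bpos δ
  w := fun _ => w
  J := bJ δ κ κ' s
  g := fun _ => g
  b := fun _ => b
  σ := σ
  w_nonneg := fun _ => hw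
  J_nonneg := fun x y => bJ_nonneg hκ hκ' x y
  J_symm := fun x y => bJ_symm δ κ κ' s x y
  g_pos := fun _ => hg
  σ_σ := R.inv
  pos_σ := R.pos
  fix := R.fix
  w_σ := fun _ => rfl
  g_σ := fun _ => rfl
  b_σ := fun _ => rfl
  J_σ := fun x y => bJ_sig κ κ' s R x y
  rp := fun c hc => bJ_rp hRPK hκ hκ' hs R c hc

/-! ### The reflections -/

/-- the first mirrors -/
def fl (j : Fin d) (x : Bx d L) : Bx d L := Function.update x j (Fin.rev (x j))

theorem inner_ej (j : Fin d) (y : V d) : ⟪(EuclideanSpace.single j 1 : V d), y⟫_ℝ = y j := by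
  rw [EuclideanSpace.inner_single_left]
  simp

theorem rev_coord (δ : ℝ) (m : Fin (2 * L)) :
    δ * (((Fin.rev m : Fin (2 * L)) : ℕ) - (L : ℝ) + 1 / 2) =
      -(δ * (((m : ℕ) : ℝ) - L + 1 / 2)) := by
  rw [Fin.val_rev]
  have h2 : (m : ℕ) + 1 ≤ 2 * L := m.2
  rw [Nat.cast_sub h2]
  push_cast
  ring

theorem Re_single (j : Fin d) (y : V d) (i : Fin d) :
    (Re (EuclideanSpace.single j 1 : V d) y) i = if i = j then -(y i) else y i := by
  have hn : ‖(EuclideanSpace.single j 1 : V d)‖ = 1 := by simp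
  rw [Re_apply' _ hn, inner_ej]
  by_cases h : i = j
  · subst h
    simp
    ring
  · simp [h]

theorem half_pos {δ : ℝ} (hδ : 0 < δ) (j : Fin d) (x : Bx d L) (h : 0 < bpos δ x j) :
    δ / 2 ≤ bpos δ x j := by
  rw [bpos_apply] at h ⊢
  have h1 : 0 < ((x j : ℕ) : ℝ) - L + 1 / 2 := by
    by_contra hn
    push Not at hn
    have := mul_nonpos_of_nonneg_of_nonpos hδ.le hn
    linarith
  have h2 : (L : ℝ) < ((x j : ℕ) : ℝ) + 1 := by linarith
  have h3 : L < (x j : ℕ) + 1 := by exact_mod_cast h2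
  have h4 : L ≤ (x j : ℕ) := by omega
  have h5 : (L : ℝ) ≤ ((x j : ℕ) : ℝ) := by exact_mod_cast h4
  nlinarith

theorem ne_zero {δ : ℝ} (hδ : 0 < δ) (j : Fin d) (x : Bx d L) : bpos δ x j ≠ 0 := by
  rw [bpos_apply]
  refine mul_ne_zero hδ.ne' fun h => ?_
  have h1 : 2 * ((x j : ℕ) : ℝ) + 1 = 2 * L := by linarith
  have h2 : 2 * (x j : ℕ) + 1 = 2 * L := by exact_mod_cast h1
  omega

theorem ref_single (hδ : 0 < δ) (j : Fin d) :
    RefD L δ (EuclideanSpace.single j 1 : V d) (fl j) where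
  norm := by simp
  inv := fun x => by
    unfold fl
    simp
  pos := fun x => by
    ext i
    rw [Re_single, bpos_apply, bpos_apply]
    by_cases h : i = j
    · subst h
      rw [if_pos rfl]
      unfold fl
      rw [Function.update_self, rev_coord]
    · rw [if_neg h]
      unfold fl
      rw [Function.update_of_ne h]
  fix := fun x h => by
    rw [inner_ej] at h
    exact absurd h (ne_zero hδ j x)
  nn := fun x y hx hy h => by
    rw [inner_ej] at hx hy
    have ha := half_pos hδ j x hx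
    have hb := half_pos hδ j y hy
    have hsq : ∑ i, (Re (EuclideanSpace.single j 1 : V d) (bpos δ x) - bpos δ y) i ^ 2 =
        δ ^ 2 := by
      have h5 := EuclideanSpace.norm_sq_eq
        (Re (EuclideanSpace.single j 1 : V d) (bpos δ x) - bpos δ y)
      rw [h] at h5
      rw [h5]
      simp only [Real.norm_eq_abs, sq_abs]
    have hwj : (Re (EuclideanSpace.single j 1 : V d) (bpos δ x) - bpos δ y) j =
        -(bpos δ x j + bpos δ y j) := by
      rw [PiLp.sub_apply, Re_single, if_pos rfl]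
      ring
    have hwi : ∀ i, i ≠ j → (Re (EuclideanSpace.single j 1 : V d) (bpos δ x) - bpos δ y) i =
        bpos δ x i - bpos δ y i := by
      intro i hi
      rw [PiLp.sub_apply, Re_single, if_neg hi]
    rw [← Finset.add_sum_erase _ _ (Finset.mem_univ j), hwj] at hsq
    have hrest : 0 ≤ ∑ i ∈ Finset.univ.erase j,
        (Re (EuclideanSpace.single j 1 : V d) (bpos δ x) - bpos δ y) i ^ 2 :=
      Finset.sum_nonneg fun i _ => sq_nonneg _
    have hge : δ ^ 2 ≤ (-(bpos δ x j + bpos δ y j)) ^ 2 := by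
      rw [neg_sq]
      exact pow_le_pow_left₀ hδ.le (by linarith) 2
    have h0 : ∑ i ∈ Finset.univ.erase j,
        (Re (EuclideanSpace.single j 1 : V d) (bpos δ x) - bpos δ y) i ^ 2 = 0 := by
      linarith
    have hj : (bpos δ x j + bpos δ y j) ^ 2 = δ ^ 2 := by
      rw [neg_sq] at hsq
      linarith
    have hj' : bpos δ x j + bpos δ y j = δ := by
      have := abs_eq_abs.2 (sq_eq_sq_iff_eq_or_eq_neg.1 hj)
      rwa [abs_of_pos (by linarith), abs_of_pos hδ] at this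
    apply bpos_inj hδ
    ext i
    by_cases hi : i = j
    · subst hi
      linarith
    · have h1 := (Finset.sum_eq_zero_iff_of_nonneg (fun i _ => sq_nonneg _)).1 h0 i
        (Finset.mem_erase.2 ⟨hi, Finset.mem_univ i⟩)
      rw [hwi i hi] at h1
      have := pow_eq_zero_iff (two_ne_zero) |>.1 h1
      linarith

/-- the vector of the diagonal mirrors -/
abbrev dv (i j : Fin d) (τ : ℝ) : V d :=
  (Real.sqrt 2)⁻¹ • (EuclideanSpace.single i 1 + τ • EuclideanSpace.single j 1)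

open Classical in
/-- reversal if `τ = 1` -/
def rv (τ : ℝ) (m : Fin (2 * L)) : Fin (2 * L) := if τ = 1 then Fin.rev m else m

theorem rv_rv (τ : ℝ) (m : Fin (2 * L)) : rv τ (rv τ m) = m := by
  unfold rv
  split_ifs <;> simp

theorem rv_coord (δ : ℝ) {τ : ℝ} (hτ : τ = 1 ∨ τ = -1) (m : Fin (2 * L)) :
    δ * (((rv τ m : Fin (2 * L)) : ℕ) - (L : ℝ) + 1 / 2) =
      -τ * (δ * (((m : ℕ) : ℝ) - L + 1 / 2)) := by
  unfold rv
  rcases hτ with rfl | rfl
  · rw [if_pos rfl, rev_coord]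
    ring
  · rw [if_neg (by norm_num)]
    ring

/-- the diagonal reflections -/
def dg (i j : Fin d) (τ : ℝ) (x : Bx d L) : Bx d L := fun l =>
  if l = i then rv τ (x j) else if l = j then rv τ (x i) else x l

theorem norm_dv {i j : Fin d} (hij : i ≠ j) {τ : ℝ} (hτ : τ = 1 ∨ τ = -1) : ‖dv i j τ‖ = 1 := by
  have h2 : ‖(EuclideanSpace.single i 1 + τ • EuclideanSpace.single j 1 : V d)‖ ^ 2 = 2 := by
    rw [EuclideanSpace.norm_sq_eq]
    have h3 : ∀ l : Fin d, ‖(EuclideanSpace.single i 1 + τ • EuclideanSpace.single j 1 : V d) l‖ ^ 2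
        = (if l = i then 1 else 0) + (if l = j then 1 else 0) := by
      intro l
      have hτ2 : τ ^ 2 = 1 := by rcases hτ with rfl | rfl <;> norm_num
      simp only [PiLp.add_apply, PiLp.smul_apply, PiLp.single_apply, smul_eq_mul,
        Real.norm_eq_abs, sq_abs]
      by_cases h1 : l = i
      · subst h1
        simp [hij]
      · by_cases h2 : l = j
        · subst h2
          simp [h1, hτ2]
        · simp [h1, h2]
    simp only [h3, Finset.sum_add_distrib, Finset.sum_ite_eq', Finset.mem_univ, if_true]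
    norm_num
  have h4 : ‖(EuclideanSpace.single i 1 + τ • EuclideanSpace.single j 1 : V d)‖ = Real.sqrt 2 := by
    rw [← h2, Real.sqrt_sq (norm_nonneg _)]
  unfold dv
  rw [norm_smul, h4, norm_inv, Real.norm_of_nonneg (Real.sqrt_nonneg 2)]
  exact inv_mul_cancel₀ (Real.sqrt_ne_zero'.2 (by norm_num))

theorem inner_dv (i j : Fin d) (τ : ℝ) (y : V d) :
    ⟪dv i j τ, y⟫_ℝ = (Real.sqrt 2)⁻¹ * (y i + τ * y j) := by
  unfold dv
  rw [real_inner_smul_left, inner_add_left, real_inner_smul_left, inner_ej, inner_ej]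

theorem Re_dv {i j : Fin d} (hij : i ≠ j) {τ : ℝ} (hτ : τ = 1 ∨ τ = -1) (y : V d) (l : Fin d) :
    (Re (dv i j τ) y) l = if l = i then -τ * y j else if l = j then -τ * y i else y l := by
  have hs : Real.sqrt 2 ≠ 0 := Real.sqrt_ne_zero'.2 (by norm_num)
  have hτ2 : τ ^ 2 = 1 := by rcases hτ with rfl | rfl <;> norm_num
  have hs2 : (Real.sqrt 2)⁻¹ * (Real.sqrt 2)⁻¹ = 1 / 2 := by
    rw [← mul_inv, Real.mul_self_sqrt (by norm_num)]
    norm_num
  rw [Re_apply' _ (norm_dv hij hτ), inner_dv, PiLp.sub_apply, PiLp.smul_apply]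
  have hl : (dv i j τ) l = (Real.sqrt 2)⁻¹ * ((if l = i then 1 else 0) +
      τ * (if l = j then 1 else 0)) := by
    simp only [dv, PiLp.add_apply, PiLp.smul_apply, PiLp.single_apply, smul_eq_mul]
  rw [hl, smul_eq_mul]
  have h5 : 2 * ((Real.sqrt 2)⁻¹ * (y i + τ * y j)) * ((Real.sqrt 2)⁻¹ *
      ((if l = i then 1 else 0) + τ * (if l = j then 1 else 0))) =
      (y i + τ * y j) * ((if l = i then 1 else 0) + τ * (if l = j then 1 else 0)) := by
    have : 2 * ((Real.sqrt 2)⁻¹ * (y i + τ * y j)) * ((Real.sqrt 2)⁻¹ *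
      ((if l = i then 1 else 0) + τ * (if l = j then 1 else 0))) =
      (2 * ((Real.sqrt 2)⁻¹ * (Real.sqrt 2)⁻¹)) * ((y i + τ * y j) *
      ((if l = i then 1 else 0) + τ * (if l = j then 1 else 0))) := by ring
    rw [this, hs2]
    ring
  rw [h5]
  by_cases h1 : l = i
  · subst h1
    rw [if_pos rfl, if_neg hij, if_pos rfl]
    ring
  · by_cases h2 : l = j
    · subst h2
      rw [if_neg h1, if_pos rfl, if_neg h1, if_pos rfl]
      have : y l - (y i + τ * y l) * (0 + τ * 1) = y l - τ * y i - τ ^ 2 * y l := by ring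
      rw [this, hτ2]
      ring
    · rw [if_neg h1, if_neg h2, if_neg h1, if_neg h2]
      ring

/-- the coordinates combine to a multiple of `δ` -/
theorem comb_ge (hδ : 0 < δ) {τ : ℝ} (hτ : τ = 1 ∨ τ = -1) (i j : Fin d) (x : Bx d L)
    (h : 0 < bpos δ x i + τ * bpos δ x j) : δ ≤ bpos δ x i + τ * bpos δ x j := by
  rw [bpos_apply, bpos_apply] at h ⊢
  rcases hτ with rfl | rfl
  · have h1 : δ * (((x i : ℕ) : ℝ) - L + 1 / 2) + 1 * (δ * (((x j : ℕ) : ℝ) - L + 1 / 2)) =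
        δ * ((((x i : ℕ) : ℤ) + ((x j : ℕ) : ℤ) + 1 - 2 * (L : ℤ) : ℤ) : ℝ) := by
      push_cast
      ring
    rw [h1] at h ⊢
    have h2 := (pos_iff_pos_of_mul_pos h).1 hδ
    have h3 : (1 : ℤ) ≤ ((x i : ℕ) : ℤ) + ((x j : ℕ) : ℤ) + 1 - 2 * (L : ℤ) := by
      have : (0 : ℤ) < ((x i : ℕ) : ℤ) + ((x j : ℕ) : ℤ) + 1 - 2 * (L : ℤ) := Int.cast_pos.1 h2
      omega
    have h4 : (1 : ℝ) ≤ ((((x i : ℕ) : ℤ) + ((x j : ℕ) : ℤ) + 1 - 2 * (L : ℤ) : ℤ) : ℝ) := by
      exact_mod_cast h3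
    nlinarith
  · have h1 : δ * (((x i : ℕ) : ℝ) - L + 1 / 2) + -1 * (δ * (((x j : ℕ) : ℝ) - L + 1 / 2)) =
        δ * ((((x i : ℕ) : ℤ) - ((x j : ℕ) : ℤ) : ℤ) : ℝ) := by
      push_cast
      ring
    rw [h1] at h ⊢
    have h2 := (pos_iff_pos_of_mul_pos h).1 hδ
    have h3 : (1 : ℤ) ≤ ((x i : ℕ) : ℤ) - ((x j : ℕ) : ℤ) := by
      have : (0 : ℤ) < ((x i : ℕ) : ℤ) - ((x j : ℕ) : ℤ) := Int.cast_pos.1 h2
      omega
    have h4 : (1 : ℝ) ≤ ((((x i : ℕ) : ℤ) - ((x j : ℕ) : ℤ) : ℤ) : ℝ) := by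
      exact_mod_cast h3
    nlinarith

theorem ref_diag (hδ : 0 < δ) {i j : Fin d} (hij : i ≠ j) {τ : ℝ} (hτ : τ = 1 ∨ τ = -1) :
    RefD L δ (dv i j τ) (dg i j τ) where
  norm := norm_dv hij hτ
  inv := fun x => by
    funext l
    unfold dg
    by_cases h1 : l = i
    · subst h1
      rw [if_pos rfl, if_neg hij.symm, if_pos rfl, rv_rv]
    · by_cases h2 : l = j
      · subst h2
        rw [if_neg h1, if_pos rfl, if_pos rfl, rv_rv]
      · rw [if_neg h1, if_neg h2, if_neg h1, if_neg h2]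
  pos := fun x => by
    ext l
    rw [Re_dv hij hτ, bpos_apply]
    unfold dg
    by_cases h1 : l = i
    · subst h1
      rw [if_pos rfl, if_pos rfl, rv_coord δ hτ, bpos_apply]
    · by_cases h2 : l = j
      · subst h2
        rw [if_neg h1, if_pos rfl, if_neg h1, if_pos rfl, rv_coord δ hτ, bpos_apply]
      · rw [if_neg h1, if_neg h2, if_neg h1, if_neg h2, bpos_apply]
  fix := fun x h => by
    rw [inner_dv] at h
    have hs : (Real.sqrt 2)⁻¹ ≠ 0 := inv_ne_zero (Real.sqrt_ne_zero'.2 (by norm_num))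
    have h0 : bpos δ x i + τ * bpos δ x j = 0 := (mul_eq_zero.1 h).resolve_left hs
    have hi : rv τ (x j) = x i := by
      apply coord_inj hδ
      rw [rv_coord δ hτ]
      rw [bpos_apply, bpos_apply] at h0
      linarith
    have hj : rv τ (x i) = x j := by rw [← hi, rv_rv]
    funext l
    unfold dg
    by_cases h1 : l = i
    · subst h1
      rw [if_pos rfl, hi]
    · by_cases h2 : l = j
      · subst h2
        rw [if_neg h1, if_pos rfl, hj]
      · rw [if_neg h1, if_neg h2]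
  nn := fun x y hx hy h => by
    exfalso
    rw [inner_dv] at hx hy
    have hs : 0 < (Real.sqrt 2)⁻¹ := inv_pos.2 (Real.sqrt_pos.2 (by norm_num))
    have hx' := comb_ge hδ hτ i j x ((pos_iff_pos_of_mul_pos hx).1 hs)
    have hy' := comb_ge hδ hτ i j y ((pos_iff_pos_of_mul_pos hy).1 hs)
    have hτ2 : τ ^ 2 = 1 := by rcases hτ with rfl | rfl <;> norm_num
    have hsq : ∑ l, (Re (dv i j τ) (bpos δ x) - bpos δ y) l ^ 2 = δ ^ 2 := by
      have h5 := EuclideanSpace.norm_sq_eq (Re (dv i j τ) (bpos δ x) - bpos δ y)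
      rw [h] at h5
      rw [h5]
      simp only [Real.norm_eq_abs, sq_abs]
    have hle : (Re (dv i j τ) (bpos δ x) - bpos δ y) i ^ 2 +
        (Re (dv i j τ) (bpos δ x) - bpos δ y) j ^ 2 ≤ δ ^ 2 := by
      rw [← hsq]
      have h6 := Finset.sum_pair (f := fun l : Fin d =>
        (Re (dv i j τ) (bpos δ x) - bpos δ y) l ^ 2) hij
      rw [← h6]
      exact Finset.sum_le_sum_of_subset_of_nonneg (Finset.subset_univ _)
        fun l _ _ => sq_nonneg _
    rw [PiLp.sub_apply, PiLp.sub_apply, Re_dv hij hτ, Re_dv hij hτ, if_pos rfl,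
      if_neg hij.symm, if_pos rfl] at hle
    -- u = τ x_j + y_i, v = τ x_i + y_j
    set u : ℝ := τ * bpos δ x j + bpos δ y i with hu
    set v : ℝ := bpos δ x i + τ * bpos δ y j with hv
    have h1 : (-τ * bpos δ x j - bpos δ y i) ^ 2 = u ^ 2 := by rw [hu]; ring
    have h2 : (-τ * bpos δ x i - bpos δ y j) ^ 2 = v ^ 2 := by
      have : (-τ * bpos δ x i - bpos δ y j) ^ 2 = τ ^ 2 * bpos δ x i ^ 2 +
          2 * τ * bpos δ x i * bpos δ y j + bpos δ y j ^ 2 := by ring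
      rw [this, hv]
      have h3 : (bpos δ x i + τ * bpos δ y j) ^ 2 = bpos δ x i ^ 2 +
          2 * τ * bpos δ x i * bpos δ y j + τ ^ 2 * bpos δ y j ^ 2 := by ring
      rw [h3, hτ2]
      ring
    rw [h1, h2] at hle
    have h3 : 2 * δ ≤ u + v := by rw [hu, hv]; linarith
    nlinarith [sq_nonneg (u - v)]

theorem pf_BXR (hRPK : Pool.Agent.H80.LD.T_RPK) : T_BXR := by
  intro d L δ κ κ' s g b w hδ hκ hκ' hs hg hw e he F hF
  have key : ∀ (σ : Bx d L → Bx d L), RefD L δ e σ →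
      Reach2 e ((bgibbs d L δ κ κ' s g b).map F) := by
    intro σ R
    exact Reach2.fin (latM hRPK R κ κ' s g b w hκ hκ' hs hg hw) F hF
  rcases he with ⟨j, rfl⟩ | ⟨i, j, hij, τ, hτ, rfl⟩
  · exact key (fl j) (ref_single hδ j)
  · exact key (dg i j τ) (ref_diag hδ hij hτ)

end

end Pool.Agent.H80.UDP
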