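import Pool.Agent.H29.UDP.TPro

/-!
# MP_47c37b: scaling limits, row MSG: the fields of the finite systems are good
-/

set_option autoImplicit false

open MeasureTheory SchwartzMap Filter Topology
open scoped ENNReal ContDiff InnerProductSpace

namespace Pool.Agent.H80.UDP

open Pool.Agent.H29.UDP
open Pool.Agent.H43.DPC (V S SD moment rot IsMAO)
open Pool.Agent.H80.LD (Re IsField ml RPos Dom pair)

noncomputable section

variable {d : ℕ} {e : V d}

/-- the field -/
def fld (A : MSys d e) (f : S d) (φ : A.ι → ℝ) : ℝ := ∑ x, (A.w x * f (A.pos x)) * φ x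

theorem fld_of (A : MSys d e) (F : (A.ι → ℝ) → SD d) (hF : IsField A.pos A.w F) (f : S d)
    (φ : A.ι → ℝ) : F φ f = fld A f φ := by
  rw [hF φ f]
  unfold fld
  exact Finset.sum_congr rfl fun x _ => by ring

theorem fld_cont (A : MSys d e) (f : S d) : Continuous (fld A f) := by
  unfold fld
  fun_prop

theorem F_meas (hFEX : T_FEX) (A : MSys d e) (F : (A.ι → ℝ) → SD d)
    (hF : IsField A.pos A.w F) : Measurable F := by
  obtain ⟨F', hF', hc⟩ := hFEX d A.ι A.pos A.w
  have : F = F' := by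
    funext φ
    refine DFunLike.ext _ _ fun f => ?_
    rw [hF φ f, hF' φ f]
  rw [this]
  exact hc.measurable

theorem tev_meas' (f : S d) : Measurable (fun T : SD d => T f) :=
  (WeakDual.eval_continuous f).measurable

theorem ml_fld (hFEX : T_FEX) (A : MSys d e) (F : (A.ι → ℝ) → SD d)
    (hF : IsField A.pos A.w F) (l : List (S d)) :
    ml (A.law.map F) l = ∫ φ, (l.map (fun f => fld A f φ)).prod ∂A.law := by
  unfold ml
  have hm : Measurable (fun T : SD d => (l.map (fun f => T f)).prod) := by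
    induction l with
    | nil => simp
    | cons a l ih =>
      simp only [List.map_cons, List.prod_cons]
      exact (tev_meas' a).mul ih
  have h := integral_map (μ := A.law) (φ := F) (F_meas hFEX A F hF).aemeasurable
    hm.aestronglyMeasurable
  refine h.trans (integral_congr_ae (Eventually.of_forall fun φ => ?_))
  simp only [fld_of A F hF]

theorem mom_fld (hFEX : T_FEX) (A : MSys d e) (F : (A.ι → ℝ) → SD d)
    (hF : IsField A.pos A.w F) {n : ℕ} (f : Fin n → S d) :
    moment (A.law.map F) f = ∫ φ, ∏ i, fld A (f i) φ ∂A.law := by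
  unfold moment
  have hm : Measurable (fun T : SD d => ∏ i, T (f i)) :=
    Finset.measurable_prod _ fun i _ => tev_meas' (f i)
  have h := integral_map (μ := A.law) (φ := F) (F_meas hFEX A F hF).aemeasurable
    hm.aestronglyMeasurable
  refine h.trans (integral_congr_ae (Eventually.of_forall fun φ => ?_))
  simp only [fld_of A F hF]

theorem mom_fld2 (hFEX : T_FEX) (A : MSys d e) (F : (A.ι → ℝ) → SD d)
    (hF : IsField A.pos A.w F) (f g : S d) :
    moment (A.law.map F) ![f, g] = ∫ φ, fld A f φ * fld A g φ ∂A.law := by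
  rw [mom_fld hFEX A F hF]
  refine integral_congr_ae (Eventually.of_forall fun φ => ?_)
  simp only [Fin.prod_univ_two, Matrix.cons_val_zero, Matrix.cons_val_one]

/-! ### integrability -/

theorem fld_le (A : MSys d e) (f : S d) (φ : A.ι → ℝ) :
    |fld A f φ| ≤ (∑ x, |A.w x * f (A.pos x)|) * Real.exp (∑ x, φ x ^ 2) := by
  unfold fld
  refine (Finset.abs_sum_le_sum_abs _ _).trans ?_
  rw [Finset.sum_mul]
  refine Finset.sum_le_sum fun x _ => ?_
  rw [abs_mul]
  refine mul_le_mul_of_nonneg_left ?_ (abs_nonneg _)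
  have h1 : φ x ^ 2 ≤ ∑ y, φ y ^ 2 :=
    Finset.single_le_sum (f := fun y => φ y ^ 2) (fun y _ => sq_nonneg _) (Finset.mem_univ x)
  have h2 : ∑ y, φ y ^ 2 + 1 ≤ Real.exp (∑ y, φ y ^ 2) := Real.add_one_le_exp _
  nlinarith [sq_abs (φ x), sq_nonneg (|φ x| - 1), abs_nonneg (φ x)]

theorem fld_int (hGLW : T_GLW) (A : MSys d e) (f : S d) (n : ℕ) :
    Integrable (fun φ => fld A f φ ^ n) A.law := by
  obtain ⟨_, _, _, _, h5⟩ := hGLW A.ι A.J A.g A.b A.g_pos
  set M : ℝ := ∑ x, |A.w x * f (A.pos x)| with hM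
  have hM0 : 0 ≤ M := Finset.sum_nonneg fun _ _ => abs_nonneg _
  refine h5 _ (M ^ n + n) ((fld_cont A f).pow n) fun φ => ?_
  have hS : 0 ≤ ∑ x, φ x ^ 2 := Finset.sum_nonneg fun _ _ => sq_nonneg _
  rw [abs_pow]
  have h1 : |fld A f φ| ^ n ≤ (M * Real.exp (∑ x, φ x ^ 2)) ^ n :=
    pow_le_pow_left₀ (abs_nonneg _) (fld_le A f φ) n
  refine h1.trans ?_
  rw [mul_pow, ← Real.exp_nat_mul]
  have hMn : 0 ≤ M ^ n := pow_nonneg hM0 n
  have hn : (0 : ℝ) ≤ n := Nat.cast_nonneg n
  refine mul_le_mul (by linarith) (Real.exp_le_exp.2 ?_) (Real.exp_nonneg _) (by linarith)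
  exact mul_le_mul_of_nonneg_right (by linarith) hS

theorem mao_fld (hGLW : T_GLW) (hFEX : T_FEX) (A : MSys d e) (F : (A.ι → ℝ) → SD d)
    (hF : IsField A.pos A.w F) : IsMAO (A.law.map F) := by
  have hP : IsProbabilityMeasure A.law := (hGLW A.ι A.J A.g A.b A.g_pos).2.2.1
  have hP' : IsProbabilityMeasure (A.law.map F) :=
    Measure.isProbabilityMeasure_map (F_meas hFEX A F hF).aemeasurable
  intro f p hp
  obtain ⟨m, hm⟩ : ∃ m : ℕ, p ≤ m := by
    obtain ⟨m, hm⟩ := ENNReal.exists_nat_gt hp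
    exact ⟨m, hm.le⟩
  have hi : Integrable (fun T : SD d => (T f) ^ (2 * (m + 1))) (A.law.map F) := by
    have h1 := (integrable_map_measure (μ := A.law) (f := F)
      (g := fun T : SD d => (T f) ^ (2 * (m + 1)))
      ((tev_meas' f).pow_const _).aestronglyMeasurable (F_meas hFEX A F hF).aemeasurable).2 (by
        refine (fld_int hGLW A f (2 * (m + 1))).congr (Eventually.of_forall fun φ => ?_)
        simp only [Function.comp, fld_of A F hF])
    exact h1
  have hne : ((2 * (m + 1) : ℕ) : ℝ≥0∞) ≠ 0 :=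
    Nat.cast_ne_zero.2 (by omega)
  have hM : MemLp (fun T : SD d => T f) ((2 * (m + 1) : ℕ) : ℝ≥0∞) (A.law.map F) := by
    rw [← integrable_norm_rpow_iff (tev_meas' f).aestronglyMeasurable hne
      (ENNReal.natCast_ne_top _)]
    refine hi.congr (Filter.Eventually.of_forall fun T => ?_)
    simp only [ENNReal.toReal_natCast, Real.rpow_natCast, Real.norm_eq_abs]
    rw [Even.pow_abs (even_two_mul _)]
  refine hM.mono_exponent (hm.trans ?_)
  exact_mod_cast (by omega : m ≤ 2 * (m + 1))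

/-! ### the reflection -/

/-- the reflection as a permutation -/
def sP (A : MSys d e) : A.ι ≃ A.ι where
  toFun := A.σ
  invFun := A.σ
  left_inv := A.σ_σ
  right_inv := A.σ_σ

theorem rot_app (R : V d ≃ₗᵢ[ℝ] V d) (f : S d) (x : V d) : rot R f x = f (R x) := rfl

theorem fld_rot (A : MSys d e) (f : S d) (φ : A.ι → ℝ) :
    fld A (rot (Re e) f) φ = fld A f (fun x => φ (A.σ x)) := by
  unfold fld
  rw [← Equiv.sum_comp (sP A)]
  refine Finset.sum_congr rfl fun x _ => ?_
  change (A.w (A.σ x) * rot (Re e) f (A.pos (A.σ x))) * φ (A.σ x) = _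
  rw [rot_app, ← A.pos_σ, A.σ_σ, A.w_σ]

theorem gH_sig (A : MSys d e) (φ : A.ι → ℝ) :
    gH A.J A.g A.b (fun x => φ (A.σ x)) = gH A.J A.g A.b φ := by
  unfold gH
  have h1 : ∑ x, (A.g x * φ (A.σ x) ^ 4 + A.b x * φ (A.σ x) ^ 2) =
      ∑ x, (A.g x * φ x ^ 4 + A.b x * φ x ^ 2) := by
    rw [← Equiv.sum_comp (sP A) (fun x => A.g x * φ x ^ 4 + A.b x * φ x ^ 2)]
    refine Finset.sum_congr rfl fun x _ => ?_
    change _ = A.g (A.σ x) * φ (A.σ x) ^ 4 + A.b (A.σ x) * φ (A.σ x) ^ 2
    rw [A.g_σ, A.b_σ]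
  have h2 : ∑ x, ∑ y, A.J x y * φ (A.σ x) * φ (A.σ y) = ∑ x, ∑ y, A.J x y * φ x * φ y := by
    rw [← Equiv.sum_comp (sP A) (fun x => ∑ y, A.J x y * φ x * φ y)]
    refine Finset.sum_congr rfl fun x _ => ?_
    change _ = ∑ y, A.J (A.σ x) y * φ (A.σ x) * φ y
    rw [← Equiv.sum_comp (sP A) (fun y => A.J (A.σ x) y * φ (A.σ x) * φ y)]
    refine Finset.sum_congr rfl fun y _ => ?_
    change _ = A.J (A.σ x) (A.σ y) * φ (A.σ x) * φ (A.σ y)
    rw [A.J_σ]
  rw [h1, h2]

theorem int_sig (hGLW : T_GLW) (A : MSys d e) (G : (A.ι → ℝ) → ℝ) :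
    ∫ φ, G (fun x => φ (A.σ x)) ∂A.law = ∫ φ, G φ ∂A.law := by
  obtain ⟨_, _, _, h4, _⟩ := hGLW A.ι A.J A.g A.b A.g_pos
  change ∫ φ, G (fun x => φ (A.σ x)) ∂(glaw A.J A.g A.b) = ∫ φ, G φ ∂(glaw A.J A.g A.b)
  rw [h4, h4]
  congr 1
  have hT : MeasurePreserving (MeasurableEquiv.piCongrLeft (fun _ : A.ι => ℝ) (sP A))
      volume volume := volume_measurePreserving_piCongrLeft (fun _ : A.ι => ℝ) (sP A)
  have hTa : ∀ φ : A.ι → ℝ,
      MeasurableEquiv.piCongrLeft (fun _ : A.ι => ℝ) (sP A) φ = fun x => φ (A.σ x) := by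
    intro φ
    funext x
    have h := Equiv.piCongrLeft_apply_apply (P := fun _ : A.ι => ℝ) (sP A) φ (A.σ x)
    have h2 : sP A (A.σ x) = x := A.σ_σ x
    rw [h2] at h
    exact h
  have h := hT.integral_comp' (g := fun φ => G φ * Real.exp (-gH A.J A.g A.b φ))
  rw [← h]
  refine integral_congr_ae (Eventually.of_forall fun φ => ?_)
  simp only [hTa, gH_sig]

theorem inner_Re' (e y : V d) : ⟪e, Re e y⟫_ℝ = -⟪e, y⟫_ℝ := by
  have h1 : Re e e = -e := by
    unfold Re
    exact Submodule.reflection_orthogonalComplement_singleton_eq_neg e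
  have h2 : Re e (Re e y) = y := by
    unfold Re
    exact Submodule.reflection_reflection _ y
  have h3 := (Re e).inner_map_map e (Re e y)
  rw [h1, h2, inner_neg_left] at h3
  linarith

theorem rinv_fld (hGLW : T_GLW) (hFEX : T_FEX) (A : MSys d e) (F : (A.ι → ℝ) → SD d)
    (hF : IsField A.pos A.w F) : RInv (A.law.map F) e := by
  intro l
  rw [ml_fld hFEX A F hF, ml_fld hFEX A F hF]
  rw [← int_sig hGLW A (fun φ => (l.map (fun f => fld A f φ)).prod)]
  refine integral_congr_ae (Eventually.of_forall fun φ => ?_)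
  simp only [List.map_map]
  congr 1
  refine List.map_congr_left fun f _ => ?_
  simp only [Function.comp, fld_rot]

theorem rpos_fld (hRP2 : T_RP2) (hFEX : T_FEX) (A : MSys d e) (F : (A.ι → ℝ) → SD d)
    (hF : IsField A.pos A.w F) : RPos (A.law.map F) e := by
  intro m c G hG
  have h := hRP2 A.ι A.J A.g A.b A.σ (fun x => 0 < ⟪e, A.pos x⟫_ℝ) A.g_pos A.σ_σ A.g_σ A.b_σ
    A.J_σ A.J_symm (fun x hx => by
      rw [A.pos_σ, inner_Re']
      linarith) (fun x => by
      rcases lt_trichotomy ⟪e, A.pos x⟫_ℝ 0 with h | h | h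
      · refine Or.inr (Or.inl ?_)
        rw [A.pos_σ, inner_Re']
        linarith
      · exact Or.inr (Or.inr (A.fix x h))
      · exact Or.inl h)
    (fun c hc => A.rp c fun x hx => hc x (not_lt.2 hx)) m c
    (fun j => (G j).map (fun f x => A.w x * f (A.pos x))) (fun j a ha x hx => by
      rw [List.mem_map] at ha
      obtain ⟨f, hf, rfl⟩ := ha
      have : f (A.pos x) = 0 := by
        by_contra h
        exact hx (hG j f hf _ h)
      change A.w x * f (A.pos x) = 0
      rw [this, mul_zero])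
  refine h.trans (le_of_eq ?_)
  refine Finset.sum_congr rfl fun j _ => Finset.sum_congr rfl fun l _ => ?_
  rw [ml_fld hFEX A F hF]
  congr 1
  refine integral_congr_ae (Eventually.of_forall fun φ => ?_)
  simp only [List.map_append, List.prod_append, List.map_map]
  congr 1
  · congr 1
    refine List.map_congr_left fun f _ => ?_
    simp only [Function.comp, fld_rot]
    rfl

theorem pf_MSG (hGLW : T_GLW) (hGGR : T_GGR) (hRP2 : T_RP2) (hFEX : T_FEX) : T_MSG := by
  intro d e A F hF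
  have hP : IsProbabilityMeasure A.law := (hGLW A.ι A.J A.g A.b A.g_pos).2.2.1
  have hP' : IsProbabilityMeasure (A.law.map F) :=
    Measure.isProbabilityMeasure_map (F_meas hFEX A F hF).aemeasurable
  refine ⟨hP', ⟨mao_fld hGLW hFEX A F hF, ?_, ?_, ?_, ?_⟩, rpos_fld hRP2 hFEX A F hF,
    rinv_fld hGLW hFEX A F hF⟩
  · intro n f hf
    rw [mom_fld hFEX A F hF]
    exact hGGR.pos A.ι A.J A.g A.b A.g_pos A.J_nonneg A.J_symm n
      (fun i x => A.w x * f i (A.pos x)) fun i x => mul_nonneg (A.w_nonneg x) (hf i _)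
  · intro n f h hfh
    rw [mom_fld hFEX A F hF, mom_fld hFEX A F hF]
    exact hGGR.maj A.ι A.J A.g A.b A.g_pos A.J_nonneg A.J_symm n
      (fun i x => A.w x * f i (A.pos x)) (fun i x => A.w x * h i (A.pos x)) fun i x => by
        rw [abs_mul, abs_of_nonneg (A.w_nonneg x)]
        exact mul_le_mul_of_nonneg_left (hfh i _) (A.w_nonneg x)
  · intro n h hh
    rw [mom_fld hFEX A F hF]
    simp only [mom_fld2 hFEX A F hF]
    exact hGGR.gau A.ι A.J A.g A.b A.g_pos A.J_nonneg A.J_symm n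
      (fun i x => A.w x * h i (A.pos x)) fun i x => mul_nonneg (A.w_nonneg x) (hh i _)
  · intro n hn f
    rw [mom_fld hFEX A F hF]
    exact hGGR.odd A.ι A.J A.g A.b A.g_pos A.J_nonneg A.J_symm n hn
      (fun i x => A.w x * f i (A.pos x))

end

end Pool.Agent.H80.UDP
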